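import Pool.Agent.CSK.Sub

/-!
# MP_7c7a1d_al: class sizes of a power of a simple group and composition factors

Let `S` be a finite nonabelian simple group which satisfies `SmallOuter` (for example with trivial
outer automorphism group) and let `G` be a finite group, with or without centre, each of whose
conjugacy class sizes divides a conjugacy class size of `S ^ n` (for example `N(G) = N(S ^ n)`).
If a subnormal subgroup `M` of `G`, for example `M = G`, has a normal series whose sections of the
form `S ^ (a i)` have together at least `n` factors `S`, then `G / Z(G)` is isomorphic to `S ^ n`.
-/

set_option autoImplicit false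

namespace Pool.Agent.Results.MP_7c7a1d_al.CompositionFactors

open Pool.Agent.CSK

/-- If every class size of the finite group `G` divides a class size of `S ^ n`, where `S` is
nonabelian simple and satisfies `SmallOuter`, and a subnormal subgroup of `G` has at least `n`
factors `S` in a normal series, then `S ^ n` is the quotient of `G` by its centre. -/
theorem result {S : Type*} [Group S] [Finite S] [IsSimpleGroup S]
    (hS : ∃ a b : S, a * b ≠ b * a) (hP : SmallOuter S) (n : ℕ) {G : Type*} [Group G] [Finite G]
    (hN : ∀ g : G, ∃ h : (Fin n → S),
      Nat.card {x : G // IsConj g x} ∣ Nat.card {x : (Fin n → S) // IsConj h x})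
    (M : Subgroup G) (hM : M.IsSubnormal) (hMF : ManyFactors S M n) :
    ∃ F : G →* (Fin n → S), Function.Surjective F ∧ F.ker = Subgroup.center G :=
  Pool.Agent.CSK.final hS hP n hN M hM hMF

end Pool.Agent.Results.MP_7c7a1d_al.CompositionFactors
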